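import Mathlib
import Pool.Agent.Y642.DL.D

/-!
# The dynamical Lehmer problem for points with many conjugates in local fields

Let `f` be a monic integer polynomial of degree `d ≥ 2`. Let `α` be a wandering algebraic number of
degree `n`, and let `ĥ(α)` be its canonical height. Let `K_i` be finitely many nonarchimedean local
fields of characteristic zero over distinct primes `p_i`, with ramification index `e_i` and residue
field with `q_i` elements. Let `Y_i` be a finite set of conjugates of `α` in `K_i`, no two of which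
have the same image under an iterate of `f`. Put

* `S = ∑ |Y_i| ^ 2 log p_i / (e_i q_i)`, `W = ∑ |Y_i| log p_i / e_i`.

Then

* `k S ≤ W + A n (1 + log (n k)) + 2 n ^ 2 d ^ k ĥ(α)` for all `k ≥ 1`, if `α` is an algebraic
  integer, where `A` depends on `f` only;
* for every `ε > 0`: if `S ≥ ε n log (n + 1)` then `ĥ(α) ≥ c / n` (the Lehmer inequality), and
  `ĥ(α) ≥ c S / n ^ 2` if `α` is an algebraic integer, where `c > 0` depends on `f` and `ε` only;
* for every `δ > 0`: if `S ≥ B n` then `ĥ(α) ≥ c / n ^ (1 + δ)`, where `B, c > 0` depend on `f` and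
  `δ` only

(in the last two items every `Y_i` has at least `q_i` elements).

The method: the conjugates of `α, f(α), …, f^(k-1)(α)` at each place fall into few residue classes,
so the product of their differences is divisible by a high power of each `p_i`; on the other hand it
is bounded at the archimedean place with a Vandermonde determinant of polynomials adapted to `f`.
-/

set_option autoImplicit false

open Polynomial ValuativeRel Module Filter Topology IntermediateField

namespace Pool.Agent.Results.MP_2194ec_nt.LocalOrbits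

/-- A nonarchimedean local field `K` of characteristic zero (in the sense of Mathlib) with the
prime number `p` below it and its ramification index `e`, so `p 𝒪 = 𝔪 ^ e`. -/
structure Place : Type 1 where
  p : ℕ
  hp : p.Prime
  K : Type
  [fld : Field K]
  [val : ValuativeRel K]
  [top : TopologicalSpace K]
  [loc : IsNonarchimedeanLocalField K]
  [char0 : CharZero K]
  e : ℕ
  he : 1 ≤ e
  ram : Ideal.span {((p : ℕ) : 𝒪[K])} = 𝓂[K] ^ e

attribute [instance] Place.fld Place.val Place.top Place.loc Place.char0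

/-- the number of elements of the residue field -/
noncomputable def Place.q (D : Place) : ℕ := Nat.card 𝓀[D.K]

/-- the map given by the integer polynomial `f` -/
noncomputable def ev (f : ℤ[X]) {A : Type} [CommRing A] (x : A) : A := aeval x f

/-- `Y` consists of conjugates of `α`, no two of which have the same image under an iterate of
`f` -/
def ConjugateSet (f : ℤ[X]) {L : Type} [Field L] [NumberField L] (α : L) {K : Type} [Field K]
    [CharZero K] (Y : Finset K) : Prop :=
  (∀ x ∈ Y, aeval x (minpoly ℚ α) = 0) ∧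
    ∀ x ∈ Y, ∀ y ∈ Y, ∀ m : ℕ, (ev f)^[m] x = (ev f)^[m] y → x = y

/-- the sum `S` -/
noncomputable def sqSum {ι : Type} [Fintype ι] (D : ι → Place) (Y : ∀ i, Finset (D i).K) : ℝ :=
  ∑ i, ((Y i).card : ℝ) ^ 2 * Real.log (D i).p / ((D i).e * (D i).q)

/-- the sum `W` -/
noncomputable def linSum {ι : Type} [Fintype ι] (D : ι → Place) (Y : ∀ i, Finset (D i).K) : ℝ :=
  ∑ i, ((Y i).card : ℝ) * Real.log (D i).p / (D i).e

/-- `h` is the canonical height of the element `α` of the number field `L` for the polynomial `f`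
of degree `d`: the limit of `h(f^m(α)) / d ^ m`, where the absolute logarithmic Weil height `h` is
Mathlib's (relative) `Height.logHeight₁` divided by `[L : ℚ]` -/
def IsCanonicalHeight (f : ℤ[X]) {L : Type} [Field L] [NumberField L] (α : L) (h : ℝ) : Prop :=
  Tendsto (fun m : ℕ => Height.logHeight₁ ((ev f)^[m] α) /
    ((finrank ℚ L : ℝ) * (f.natDegree : ℝ) ^ m)) atTop (𝓝 h)

/-- the forward orbit of `α` is infinite -/
def Wandering (f : ℤ[X]) {L : Type} [Field L] (α : L) : Prop :=
  Function.Injective fun m : ℕ => (ev f)^[m] α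

/-- the places with their sets of conjugates: the primes are distinct -/
def Admissible (f : ℤ[X]) {L : Type} [Field L] [NumberField L] (α : L) {ι : Type}
    (D : ι → Place) (Y : ∀ i, Finset (D i).K) : Prop :=
  (Function.Injective fun i => (D i).p) ∧ ∀ i, ConjugateSet f α (Y i)

/-- **The dynamical Lehmer problem for points with many conjugates in local fields.** -/
theorem result (f : ℤ[X]) (hf : f.Monic) (hd : 2 ≤ f.natDegree) :
    (∃ A : ℝ, 0 < A ∧ ∀ (L : Type) [Field L] [NumberField L] (α : L), IsIntegral ℤ α →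
      Wandering f α → ∃ h : ℝ, IsCanonicalHeight f α h ∧
        ∀ (ι : Type) [Fintype ι] (D : ι → Place) (Y : ∀ i, Finset (D i).K), Admissible f α D Y →
        ∀ n : ℕ, n = (minpoly ℚ α).natDegree → ∀ k : ℕ, 1 ≤ k →
          k * sqSum D Y ≤ linSum D Y + A * n * (1 + Real.log (n * k)) +
            2 * n ^ 2 * f.natDegree ^ k * h) ∧
    (∀ ε : ℝ, 0 < ε → ∃ c : ℝ, 0 < c ∧ ∀ (L : Type) [Field L] [NumberField L] (α : L), ℚ⟮α⟯ = ⊤ →
      Wandering f α → ∃ h : ℝ, IsCanonicalHeight f α h ∧
        ∀ (ι : Type) [Fintype ι] (D : ι → Place) (Y : ∀ i, Finset (D i).K), Admissible f α D Y →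
        (∀ i, (D i).q ≤ (Y i).card) → ∀ n : ℕ, n = finrank ℚ L →
          ε * n * Real.log (n + 1) ≤ sqSum D Y →
          c / n ≤ h ∧ (IsIntegral ℤ α → c * sqSum D Y / n ^ 2 ≤ h)) ∧
    (∀ δ : ℝ, 0 < δ → ∃ B c : ℝ, 0 < B ∧ 0 < c ∧ ∀ (L : Type) [Field L] [NumberField L] (α : L),
      ℚ⟮α⟯ = ⊤ → Wandering f α → ∃ h : ℝ, IsCanonicalHeight f α h ∧
        ∀ (ι : Type) [Fintype ι] (D : ι → Place) (Y : ∀ i, Finset (D i).K), Admissible f α D Y →
        (∀ i, (D i).q ≤ (Y i).card) → ∀ n : ℕ, n = finrank ℚ L →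
          B * n ≤ sqSum D Y → c / (n : ℝ) ^ (1 + δ) ≤ h) := by
  let T : Place → Pool.Agent.Y642.LZ.Place.{0} := fun D =>
    { p := D.p, hp := D.hp, K := D.K, e := D.e, he := D.he, ram := D.ram }
  have hinj : ∀ {L : Type} [Field L] [NumberField L] {α : L} {ι : Type} [Fintype ι]
      {D : ι → Place} {Y : ∀ i, Finset (D i).K}, Admissible f α D Y →
      Set.InjOn (fun i => (T (D i)).p) (Finset.univ : Finset ι) := fun h => h.1.injOn
  have hconj : ∀ {L : Type} [Field L] [NumberField L] {α : L} {ι : Type} [Fintype ι]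
      {D : ι → Place} {Y : ∀ i, Finset (D i).K}, Admissible f α D Y →
      ∀ i ∈ (Finset.univ : Finset ι),
        Pool.Agent.Y642.DL.Conj f α (F := (T (D i)).K) (Y i) := fun h i _ => h.2 i
  refine ⟨?_, fun ε hε => ?_, fun δ hδ => ?_⟩
  · obtain ⟨A, hA, h⟩ := Pool.Agent.Y642.DL.thm_one.{0, 0} f hf hd
    refine ⟨A, hA, fun L _ _ α hα hw => ?_⟩
    obtain ⟨h0, hh⟩ := Pool.Agent.Y642.DL.exists_CH hf hd α
    refine ⟨h0, hh, fun ι _ D Y hadm n hn k hk => ?_⟩
    have h1 := h L α hα hw h0 hh ι Finset.univ (fun i => T (D i)) (hinj hadm) Y (hconj hadm) k hk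
    subst hn
    have h2 : (k : ℝ) * sqSum D Y ≤ linSum D Y + A * ((minpoly ℚ α).natDegree *
        (1 + Real.log ((minpoly ℚ α).natDegree * k))) +
        2 * ((minpoly ℚ α).natDegree ^ 2 * (f.natDegree ^ k * h0)) := h1
    linarith
  · obtain ⟨c, hc, h⟩ := Pool.Agent.Y642.DL.thm_two.{0, 0} f hf hd ε hε
    refine ⟨c, hc, fun L _ _ α hα hw => ?_⟩
    obtain ⟨h0, hh⟩ := Pool.Agent.Y642.DL.exists_CH hf hd α
    refine ⟨h0, hh, fun ι _ D Y hadm hq n hn hS => ?_⟩
    subst hn
    exact h L α hα hw h0 hh ι Finset.univ (fun i => T (D i)) (hinj hadm) Y (hconj hadm)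
      (fun i _ => hq i) (by rw [← mul_assoc]; exact hS)
  · obtain ⟨B, c, hB, hc, h⟩ := Pool.Agent.Y642.DL.thm_three.{0, 0} f hf hd δ hδ
    refine ⟨B, c, hB, hc, fun L _ _ α hα hw => ?_⟩
    obtain ⟨h0, hh⟩ := Pool.Agent.Y642.DL.exists_CH hf hd α
    refine ⟨h0, hh, fun ι _ D Y hadm hq n hn hS => ?_⟩
    subst hn
    exact h L α hα hw h0 hh ι Finset.univ (fun i => T (D i)) (hinj hadm) Y (hconj hadm)
      (fun i _ => hq i) hS

end Pool.Agent.Results.MP_2194ec_nt.LocalOrbits
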