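import Mathlib
import Pool.Agent.Y740.RL.TopQ

/-!
# Relative Lehmer bounds for rational maps with potentially good, purely inseparable reduction

Let `K` be a number field and `f` a rational map of `P^1` over `K`, of degree `p ^ r` with `p` a
prime number. Assume that over some finite extension `K'` of `K`, in some coordinates, `f` has good
and purely inseparable reduction at a place above `p`; let `𝔭` be the prime of `K` below it.

There is a constant `C` such that the following holds. Let `E` be an abelian extension of `K`, let
`N` be a finite extension of `E` which is generated by coordinates of periodic points of `f`, and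
let `L` be a finite extension of `N`. Then all wandering points `P` of `P^1(L)` satisfy, with
`D = [L : N]`,
* `ĥ(P) ≥ exp (- C * sqrt (1 + log D)) / (C * [E : K] * D)`;
* `ĥ(P) ≥ exp (- C * sqrt (1 + log D)) / (C * e * D)`, if the ramification indices of `E` over `K`
  at the primes above `𝔭` are at most `e`.

For `N = E` this says that the loss with respect to the inequality of the conjecture depends on the
degree of `L` over `E` only; in particular the inequality of the conjecture holds for the points of
bounded degree over abelian extensions of `K`. For `E = K` this is a lower bound over the field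
generated by all periodic points of `f`; in particular the canonical height is bounded below on the
wandering points with coordinates in (a finite extension of) this field.

More generally `E` may be any Galois extension of `K` such that, for a fixed `n`, the `n`-th powers
of the elements of the decomposition groups above `𝔭` have a bounded number of conjugates in the
Galois group.

The proof bounds from below the `𝔭`-adic energies of the orbits, under the group of automorphisms
fixing `N`, of the iterates of `P`, twisted by the powers of a fixed automorphism which is inverse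
to Frobenius on `E` and which acts on the periodic points as the inverse of (an iterate of) `f`;
this automorphism preserves `N`.
-/

set_option autoImplicit false

namespace Pool.Agent.Results.MP_2194ec_nt.RelativeLehmer

open MvPolynomial NumberField Module Filter Topology
open scoped Pointwise

/-- A pair `G` of binary forms of degree `q` over the number field `k` has *good, purely
inseparable reduction* at the finite place `v`: all coefficients are `v`-integral, those of the
monomials other than `X ^ q` and `Y ^ q` are in the maximal ideal, and the determinant of the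
coefficients of `X ^ q` and `Y ^ q` is a unit at `v`. -/
def GoodInseparable {k : Type} [Field k] [NumberField k] (v : FinitePlace k) (q : ℕ)
    (G : Fin 2 → MvPolynomial (Fin 2) k) : Prop :=
  (∀ i m, v ((G i).coeff m) ≤ 1) ∧
  (∀ i m, m ≠ Finsupp.single 0 q → m ≠ Finsupp.single 1 q → v ((G i).coeff m) < 1) ∧
  v ((G 0).coeff (Finsupp.single 0 q) * (G 1).coeff (Finsupp.single 1 q) -
    (G 0).coeff (Finsupp.single 1 q) * (G 1).coeff (Finsupp.single 0 q)) = 1

/-- The pair `F` of binary forms over `K` has *potentially good, purely inseparable reduction*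
above the prime ideal `𝔭` of `K`, which contains `p`: there are a number field `K'` containing `K`,
an invertible matrix `A` over `K'` and a pair `G` of binary forms of degree `q` over `K'` with
`A ∘ F = G ∘ A`, which has good, purely inseparable reduction at a finite place `v` of `K'` above
`𝔭`. -/
def PotentiallyInseparable {K : Type} [Field K] [NumberField K] (𝔭 : Ideal (𝓞 K)) (p q : ℕ)
    (F : Fin 2 → MvPolynomial (Fin 2) K) : Prop :=
  ∃ (K' : Type) (_ : Field K') (_ : NumberField K') (_ : Algebra K K')
    (A : Matrix (Fin 2) (Fin 2) K') (G : Fin 2 → MvPolynomial (Fin 2) K') (v : FinitePlace K'),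
    A.det ≠ 0 ∧ (∀ i, (G i).IsHomogeneous q) ∧
    (∀ i, ∑ j, C (A i j) * map (algebraMap K K') (F j) =
      bind₁ (fun k => ∑ l, C (A k l) * X l) (G i)) ∧
    v.maximalIdeal.asIdeal.under (𝓞 K) = 𝔭 ∧ v (p : K') < 1 ∧ GoodInseparable v q G

/-- the map defined by a pair of forms, on coordinate vectors over an extension -/
noncomputable def evalMap {K L : Type} [Field K] [Field L] [Algebra K L]
    (F : Fin 2 → MvPolynomial (Fin 2) K) (y : Fin 2 → L) : Fin 2 → L := fun i => aeval y (F i)

/-- the point with coordinate vector `x` is wandering: its iterates are pairwise distinct points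
of the projective line -/
def Wandering {K L : Type} [Field K] [Field L] [Algebra K L]
    (F : Fin 2 → MvPolynomial (Fin 2) K) (x : Fin 2 → L) : Prop :=
  ¬ ∃ m n : ℕ, m ≠ n ∧ ∃ c : L, c ≠ 0 ∧ (evalMap F)^[n] x = c • (evalMap F)^[m] x

/-- `h` is the canonical height of the point with coordinate vector `x` over the number field `L`:
the limit of `h(F^n(x)) / q ^ n`, where `h` is the absolute logarithmic Weil height, that is
Mathlib's (relative) `Height.logHeight` divided by `[L : ℚ]` -/
def IsCanonicalHeight {K L : Type} [Field K] [Field L] [NumberField L] [Algebra K L]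
    (F : Fin 2 → MvPolynomial (Fin 2) K) (q : ℕ) (x : Fin 2 → L) (h : ℝ) : Prop :=
  Tendsto (fun n : ℕ => Height.logHeight ((evalMap F)^[n] x) /
    ((finrank ℚ L : ℝ) * (q : ℝ) ^ n)) atTop (𝓝 h)

/-- the `n`-th powers of the elements of the decomposition groups of the primes of `E` above `𝔭`
have at most `B` conjugates in the Galois group of `E` over `K` -/
def FewConjugates {K : Type} [Field K] [NumberField K] (𝔭 : Ideal (𝓞 K)) (E : Type) [Field E]
    [NumberField E] [Algebra K E] (n B : ℕ) : Prop :=
  ∀ 𝔓 : Ideal (𝓞 E), 𝔓.IsMaximal → 𝔓.LiesOver 𝔭 → ∀ σ : Gal(E/K), σ • 𝔓 = 𝔓 →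
    (Set.range fun g : Gal(E/K) => g * σ ^ n * g⁻¹).ncard ≤ B

/-- the elements `t` of `N` such that the point `(t : 1)` of the projective line is periodic -/
def periodicSet {K : Type} [Field K] (F : Fin 2 → MvPolynomial (Fin 2) K) (N : Type) [Field N]
    [Algebra K N] : Set N :=
  {t | ∃ j : ℕ, 1 ≤ j ∧ ∃ c : N, c ≠ 0 ∧ (evalMap F)^[j] ![t, 1] = c • ![t, 1]}

/-- **Main result.** -/
theorem result (K : Type) [Field K] [NumberField K] (p r : ℕ) (hp : p.Prime) (hr : 1 ≤ r)
    (F : Fin 2 → MvPolynomial (Fin 2) K) (hF : ∀ i, (F i).IsHomogeneous (p ^ r))
    (𝔭 : Ideal (𝓞 K)) (hred : PotentiallyInseparable 𝔭 p (p ^ r) F)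
    -- `n = B = 1` allows all abelian extensions `E` of `K`
    (n B : ℕ) (hn : 1 ≤ n) :
    ∃ C : ℝ, 0 < C ∧ ∀ (E N L : Type) [Field E] [NumberField E] [Field N] [NumberField N]
      [Field L] [NumberField L] [Algebra K E] [Algebra K N] [Algebra K L] [Algebra E N]
      [Algebra N L] [IsScalarTower K E N] [IsScalarTower K N L] [IsGalois K E],
      FewConjugates 𝔭 E n B → Algebra.adjoin E (periodicSet F N) = ⊤ →
      ∀ x : Fin 2 → L, x ≠ 0 → Wandering F x →
      ∃ h : ℝ, IsCanonicalHeight F (p ^ r) x h ∧
        Real.exp (-(C * Real.sqrt (1 + Real.log (finrank N L)))) /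
          (C * finrank K E * finrank N L) ≤ h ∧
        ∀ e : ℕ, (∀ 𝔓 : Ideal (𝓞 E), 𝔓.IsMaximal → 𝔓.LiesOver 𝔭 →
          𝔓.ramificationIdx (𝓞 K) ≤ e) →
          Real.exp (-(C * Real.sqrt (1 + Real.log (finrank N L)))) / (C * e * finrank N L) ≤
            h := by
  obtain ⟨K', i1, i2, i3, A, G, v, hA, hG, hconj, hv𝔭, hv, h1, h2, h3⟩ := hred
  subst hv𝔭
  exact Pool.Agent.Y740.RL.topQ hp hr F hF K' A hA G hG hconj v hv ⟨h1, h2, h3⟩ B n hn

end Pool.Agent.Results.MP_2194ec_nt.RelativeLehmer
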